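import Pool.Agent.N993.RK.Stm

/-!
# RK-UNI (helper73): all unipotent elements of `SU₃(5ⁿ)` are in the generated group
-/

set_option autoImplicit false

namespace Pool.Agent.N73.RK

open Matrix Pool.Agent.N993.RK

section general

variable {F : Type} [Field F] [CharP F 5]

lemma five : (5 : F) = 0 := by exact_mod_cast CharP.cast_eq_zero F 5

lemma CiC : Ci F * C F = 1 := by
  have h5 := five (F := F)
  rw [Ci, C, Matrix.mul_fin_three, Matrix.one_fin_three]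
  ext x y
  fin_cases x <;> fin_cases y <;> simp <;>
    first | linear_combination 2 * h5 | linear_combination 5 * h5 | linear_combination h5

lemma CCi : C F * Ci F = 1 := mul_eq_one_comm.1 CiC

/-- The explicit form of the unipotent elements. -/
def XM (a b c : F) : M3 F :=
  !![6 + b, 10 + 2 * b, c; 10 + 2 * b, 16 + 4 * b, 2 * c; a, 2 * a, 1]

omit [CharP F 5] in
lemma X_eq (n : ℕ) (a b : F) : C F * NU n a b * Ci F = XM a b (-a ^ (5 ^ n)) := by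
  rw [C, NU, Ci, Matrix.mul_fin_three, Matrix.mul_fin_three, XM]
  ext x y
  fin_cases x <;> fin_cases y <;> simp <;> ring

lemma NU_mul (n : ℕ) (a b a' b' : F) :
    NU n a b * NU n a' b' = NU n (a + a') (b + b' - a ^ (5 ^ n) * a') := by
  have h1 : (a + a') ^ (5 ^ n) = a ^ (5 ^ n) + a' ^ (5 ^ n) := by
    have := map_add (iterateFrobenius F 5 n) a a'
    simpa only [iterateFrobenius_def] using this
  rw [NU, NU, NU, Matrix.mul_fin_three, h1]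
  ext x y
  fin_cases x <;> fin_cases y <;> simp <;> ring

lemma X_mul (n : ℕ) (a b a' b' : F) : (C F * NU n a b * Ci F) * (C F * NU n a' b' * Ci F) =
    C F * NU n (a + a') (b + b' - a ^ (5 ^ n) * a') * Ci F := by
  rw [← NU_mul]
  calc (C F * NU n a b * Ci F) * (C F * NU n a' b' * Ci F) =
      C F * NU n a b * (Ci F * C F) * (NU n a' b' * Ci F) := by simp only [Matrix.mul_assoc]
    _ = _ := by rw [CiC, Matrix.mul_one]; simp only [Matrix.mul_assoc]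

omit [CharP F 5] in
lemma NU_zero (n : ℕ) : NU n (0 : F) 0 = 1 := by
  rw [NU, Matrix.one_fin_three, zero_pow (by positivity), neg_zero]

lemma X_zero (n : ℕ) : C F * NU n (0 : F) 0 * Ci F = 1 := by
  rw [NU_zero, Matrix.mul_one, CCi]

/-- Elements of `SU₃(5)`. -/
lemma exists_H0 (M : M3 F) (h1 : M.det = 1) (h2 : M * ct 1 M = 1) :
    ∃ g : H0 F, mt g.1 = M := ⟨⟨⟨M, h1⟩, h2⟩, rfl⟩

lemma ct_eq (n : ℕ) (a b c d e f g h i : F) : ct n !![a, b, c; d, e, f; g, h, i] =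
    !![a ^ (5 ^ n), d ^ (5 ^ n), g ^ (5 ^ n); b ^ (5 ^ n), e ^ (5 ^ n), h ^ (5 ^ n);
      c ^ (5 ^ n), f ^ (5 ^ n), i ^ (5 ^ n)] := by
  ext x y
  rw [ct_apply]
  fin_cases x <;> fin_cases y <;> rfl

lemma exists_X (a b : F) (ha : a ^ 25 = a) (h : b + b ^ 5 + a * a ^ 5 = 0) :
    ∃ g : H0 F, mt g.1 = C F * NU 1 a b * Ci F := by
  have h5 := five (F := F)
  apply exists_H0
  · rw [Matrix.det_mul, Matrix.det_mul, mul_right_comm, ← Matrix.det_mul, CCi, Matrix.det_one,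
      one_mul, NU, Matrix.det_fin_three]
    simp
  · have e1 : ct 1 (C F) = (C F)ᵀ := by
      rw [C, ct_eq]
      ext x y
      fin_cases x <;> fin_cases y <;> simp <;>
        first | linear_combination 48 * h5 | linear_combination 6 * h5 |
          linear_combination 204 * h5
    have e2 : ct 1 (Ci F) = (Ci F)ᵀ := by
      rw [Ci, ct_eq]
      ext x y
      fin_cases x <;> fin_cases y <;> simp <;>
        first | linear_combination 48 * h5 | linear_combination 6 * h5 |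
          linear_combination 204 * h5
    have e3 : Ci F * (Ci F)ᵀ = !![0, 1, 0; 1, 0, 0; 0, 0, 1] := by
      rw [Ci]
      ext x y
      fin_cases x <;> fin_cases y <;> simp [Matrix.mul_apply, Fin.sum_univ_three]
      · linear_combination 5 * h5
      · linear_combination 2 * h5
      · linear_combination 2 * h5
      · linear_combination h5
    have e4 : C F * !![0, 1, 0; 1, 0, 0; 0, 0, 1] * (C F)ᵀ = 1 := by
      rw [C, Matrix.mul_fin_three]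
      ext x y
      fin_cases x <;> fin_cases y <;> simp [Matrix.mul_apply, Fin.sum_univ_three]
      · linear_combination h5
      · linear_combination 2 * h5
      · linear_combination 2 * h5
      · linear_combination 3 * h5
    have e5 : NU 1 a b * !![0, 1, 0; 1, 0, 0; 0, 0, 1] * ct 1 (NU 1 a b) =
        !![0, 1, 0; 1, 0, 0; 0, 0, 1] := by
      rw [NU, ct_eq, Matrix.mul_fin_three, Matrix.mul_fin_three]
      have h6 : (-a ^ 5 ^ 1) ^ 5 ^ 1 = -a := by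
        rw [pow_one, neg_pow, ← pow_mul, show 5 * 5 = 25 by norm_num, ha]
        norm_num
      rw [h6]
      ext x y
      fin_cases x <;> fin_cases y <;> simp
      linear_combination h
    rw [ct_mul, ct_mul, e1, e2]
    calc C F * NU 1 a b * Ci F * ((Ci F)ᵀ * (ct 1 (NU 1 a b) * (C F)ᵀ)) =
        C F * (NU 1 a b * (Ci F * (Ci F)ᵀ) * ct 1 (NU 1 a b)) * (C F)ᵀ := by
          simp only [Matrix.mul_assoc]
      _ = 1 := by rw [e3, e5, e4]

omit [CharP F 5] in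
lemma XM_map {F' : Type} [Field F'] (f : F →+* F') (a b c : F) :
    (XM a b c).map f = XM (f a) (f b) (f c) := by
  have h2 : f 2 = 2 := map_ofNat f 2
  have h4 : f 4 = 4 := map_ofNat f 4
  have h6 : f 6 = 6 := map_ofNat f 6
  have h10 : f 10 = 10 := map_ofNat f 10
  have h16 : f 16 = 16 := map_ofNat f 16
  rw [XM, XM]
  ext x y
  fin_cases x <;> fin_cases y <;> simp [h2, h4, h6, h10, h16]

end general

section Om

variable {k : Type} [Field k] [CharP k 5] (f : k →+* Om) (v : Om) (hv : v ≠ 0)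

/-- The matrix is the matrix of an element of `Sd`. -/
def Pm (M : M3 Om) : Prop := ∃ g ∈ Sd f v hv, mt g = M

variable {f v hv}

lemma Pm.mul {M N : M3 Om} (h1 : Pm f v hv M) (h2 : Pm f v hv N) : Pm f v hv (M * N) := by
  obtain ⟨g, hg, rfl⟩ := h1
  obtain ⟨h, hh, rfl⟩ := h2
  exact ⟨g * h, mul_mem hg hh, mt_mul g h⟩

lemma Pm.inv {M N : M3 Om} (h1 : Pm f v hv M) (h2 : M * N = 1) : Pm f v hv N := by
  obtain ⟨g, hg, rfl⟩ := h1
  refine ⟨g⁻¹, inv_mem hg, ?_⟩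
  calc mt g⁻¹ = mt g⁻¹ * (mt g * N) := by rw [h2, Matrix.mul_one]
    _ = N := by rw [← Matrix.mul_assoc, mt_inv_mul, Matrix.one_mul]

lemma Pm.conj {M T T' : M3 Om} (h1 : Pm f v hv M) (h2 : Pm f v hv T) (h3 : T * T' = 1) :
    Pm f v hv (T * M * T') := (h2.mul h1).mul (h2.inv h3)

lemma ph_mem (m : Fin 3) (g : H0 k) : ph f v hv m g ∈ Sd f v hv :=
  Subgroup.subset_closure (Set.mem_iUnion.2 ⟨m, g, rfl⟩)

lemma mt_ph (m : Fin 3) (g : H0 k) : mt (ph f v hv m g) =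
    mt (E v hv m) * (mt g.1).map f * mt (E v hv m)⁻¹ := rfl

lemma mt_ph_one (g : H0 k) : mt (ph f v hv 1 g) = (mt g.1).map f := by
  rw [mt_ph]
  have h1 : E v hv 1 = 1 := rfl
  rw [h1, inv_one, mt_one, Matrix.one_mul, Matrix.mul_one]

lemma mt_D2 : mt (D2 v hv) = !![v, 0, 0; 0, v, 0; 0, 0, v⁻¹ ^ 2] := by
  change Matrix.diagonal ![v, v, v⁻¹ ^ 2] = _
  ext x y
  fin_cases x <;> fin_cases y <;> simp

lemma mt_D2i : mt (D2 v hv)⁻¹ = !![v⁻¹, 0, 0; 0, v⁻¹, 0; 0, 0, v ^ 2] := by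
  have h1 : mt (D2 v hv) * !![v⁻¹, 0, 0; 0, v⁻¹, 0; 0, 0, v ^ 2] = 1 := by
    rw [mt_D2, Matrix.mul_fin_three, Matrix.one_fin_three]
    ext x y
    fin_cases x <;> fin_cases y <;> simp [hv]
  calc mt (D2 v hv)⁻¹ = mt (D2 v hv)⁻¹ * (mt (D2 v hv) *
        !![v⁻¹, 0, 0; 0, v⁻¹, 0; 0, 0, v ^ 2]) := by rw [h1, Matrix.mul_one]
    _ = _ := by rw [← Matrix.mul_assoc, mt_inv_mul, Matrix.one_mul]

lemma mt_D1 : mt (D1 v hv) = !![v ^ 2, 0, 0; 0, v⁻¹, 0; 0, 0, v⁻¹] := by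
  change Matrix.diagonal ![v ^ 2, v⁻¹, v⁻¹] = _
  ext x y
  fin_cases x <;> fin_cases y <;> simp

lemma mt_D1i : mt (D1 v hv)⁻¹ = !![v⁻¹ ^ 2, 0, 0; 0, v, 0; 0, 0, v] := by
  have h1 : mt (D1 v hv) * !![v⁻¹ ^ 2, 0, 0; 0, v, 0; 0, 0, v] = 1 := by
    rw [mt_D1, Matrix.mul_fin_three, Matrix.one_fin_three]
    ext x y
    fin_cases x <;> fin_cases y <;> simp [hv]
  calc mt (D1 v hv)⁻¹ = mt (D1 v hv)⁻¹ * (mt (D1 v hv) *
        !![v⁻¹ ^ 2, 0, 0; 0, v, 0; 0, 0, v]) := by rw [h1, Matrix.mul_one]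
    _ = _ := by rw [← Matrix.mul_assoc, mt_inv_mul, Matrix.one_mul]

lemma conj_D2 (M : M3 Om) : mt (D2 v hv) * M * mt (D2 v hv)⁻¹ =
    !![M 0 0, M 0 1, v ^ 3 * M 0 2; M 1 0, M 1 1, v ^ 3 * M 1 2;
      (v ^ 3)⁻¹ * M 2 0, (v ^ 3)⁻¹ * M 2 1, M 2 2] := by
  rw [mt_D2, mt_D2i]
  conv_lhs => rw [Matrix.eta_fin_three M]
  rw [Matrix.mul_fin_three, Matrix.mul_fin_three]
  ext x y
  fin_cases x <;> fin_cases y <;> simp <;> field_simp

lemma conj_D1 (M : M3 Om) : mt (D1 v hv) * M * mt (D1 v hv)⁻¹ =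
    !![M 0 0, v ^ 3 * M 0 1, v ^ 3 * M 0 2; (v ^ 3)⁻¹ * M 1 0, M 1 1, M 1 2;
      (v ^ 3)⁻¹ * M 2 0, M 2 1, M 2 2] := by
  rw [mt_D1, mt_D1i]
  conv_lhs => rw [Matrix.eta_fin_three M]
  rw [Matrix.mul_fin_three, Matrix.mul_fin_three]
  ext x y
  fin_cases x <;> fin_cases y <;> simp <;> field_simp

lemma mt_ph_zero (g : H0 k) : mt (ph f v hv 0 g) =
    !![f (mt g.1 0 0), f (mt g.1 0 1), v ^ 3 * f (mt g.1 0 2);
      f (mt g.1 1 0), f (mt g.1 1 1), v ^ 3 * f (mt g.1 1 2);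
      (v ^ 3)⁻¹ * f (mt g.1 2 0), (v ^ 3)⁻¹ * f (mt g.1 2 1), f (mt g.1 2 2)] := by
  rw [mt_ph]
  exact conj_D2 (hv := hv) _

lemma mt_ph_two (g : H0 k) : mt (ph f v hv 2 g) =
    !![f (mt g.1 0 0), v ^ 3 * f (mt g.1 0 1), v ^ 3 * f (mt g.1 0 2);
      (v ^ 3)⁻¹ * f (mt g.1 1 0), f (mt g.1 1 1), f (mt g.1 1 2);
      (v ^ 3)⁻¹ * f (mt g.1 2 0), f (mt g.1 2 1), f (mt g.1 2 2)] := by
  rw [mt_ph]
  exact conj_D1 (hv := hv) _

/-! ### The first two claims -/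

lemma pow_even {x : Om} (hx : x ^ 25 = x) (n : ℕ) : x ^ (5 ^ (2 * n)) = x := by
  rw [pow_mul]
  norm_num
  induction n with
  | zero => rw [pow_zero, pow_one]
  | succ n ih => rw [pow_succ, pow_mul, ih, hx]

lemma pow_odd {x : Om} (hx : x ^ 25 = x) {n : ℕ} (hn : Odd n) : x ^ (5 ^ n) = x ^ 5 := by
  obtain ⟨j, rfl⟩ := hn
  rw [pow_succ, pow_mul, pow_even hx]

lemma k25 [Fintype k] (hk : Fintype.card k = 25) (a : k) : a ^ 25 = a := by
  rw [← hk]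
  exact FiniteField.pow_card a

lemma f25 [Fintype k] (hk : Fintype.card k = 25) (a : k) : f a ^ 25 = f a := by
  rw [← map_pow, k25 hk]

lemma u_bar {n : ℕ} (hu : (v ^ 3) ^ (5 ^ n + 1) = 1) : (v ^ 3) ^ (5 ^ n) = (v ^ 3)⁻¹ :=
  eq_inv_of_mul_eq_one_left (by rw [← pow_succ, hu])

lemma u_bar' {n : ℕ} (hu : (v ^ 3) ^ (5 ^ n + 1) = 1) : (v ^ 3)⁻¹ ^ (5 ^ n) = v ^ 3 := by
  rw [inv_pow, u_bar hu, inv_inv]

lemma two_bar (x : Om) (n : ℕ) : x ^ (5 ^ (2 * n)) = (x ^ (5 ^ n)) ^ (5 ^ n) := by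
  rw [← pow_mul, ← pow_add, two_mul]

lemma u_two {n : ℕ} (hu : (v ^ 3) ^ (5 ^ n + 1) = 1) : (v ^ 3) ^ (5 ^ (2 * n)) = v ^ 3 := by
  rw [two_bar, u_bar hu, u_bar' hu]

/-- The conjugating elements are unitary up to a scalar. -/
lemma E_ct {n : ℕ} (hu : (v ^ 3) ^ (5 ^ n + 1) = 1) (m : Fin 3) :
    ∃ c : Om, c ≠ 0 ∧ mt (E v hv m) * ct n (mt (E v hv m)) = c • 1 := by
  have hc : v ^ (5 ^ n + 1) * v ^ (5 ^ n + 1) * v ^ (5 ^ n + 1) = 1 := by
    rw [← hu]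
    ring
  have h0 : (0 : Om) ^ 5 ^ n = 0 := zero_pow (by positivity)
  fin_cases m
  · refine ⟨v ^ (5 ^ n + 1), pow_ne_zero _ hv, ?_⟩
    change mt (D2 v hv) * ct n (mt (D2 v hv)) = _
    rw [mt_D2, ct_eq, Matrix.mul_fin_three, Matrix.one_fin_three]
    ext x y
    fin_cases x <;> fin_cases y <;> simp [h0]
    · rw [pow_succ']
    · rw [pow_succ']
    · rw [← mul_inv]
      apply inv_eq_of_mul_eq_one_left
      rw [← hc]
      ring
  · refine ⟨1, one_ne_zero, ?_⟩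
    change mt (1 : SL Om) * ct n (mt (1 : SL Om)) = _
    rw [mt_one, ct_one, one_mul, one_smul]
  · refine ⟨(v ^ (5 ^ n + 1))⁻¹, inv_ne_zero (pow_ne_zero _ hv), ?_⟩
    change mt (D1 v hv) * ct n (mt (D1 v hv)) = _
    rw [mt_D1, ct_eq, Matrix.mul_fin_three, Matrix.one_fin_three]
    ext x y
    fin_cases x <;> fin_cases y <;> simp [h0]
    · apply eq_inv_of_mul_eq_one_left
      rw [← hc]
      ring
    · rw [← mul_inv, ← pow_succ']
    · rw [← mul_inv, ← pow_succ']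

theorem claim1 [Fintype k] (hk : Fintype.card k = 25) {n : ℕ} (hn : Odd n)
    (hu : (v ^ 3) ^ (5 ^ n + 1) = 1) : Sd f v hv ≤ SU Om n := by
  rw [Sd, Subgroup.closure_le]
  intro x hx
  obtain ⟨m, g, rfl⟩ := Set.mem_iUnion.1 hx
  change mt (ph f v hv m g) * ct n (mt (ph f v hv m g)) = 1
  obtain ⟨c, hc, hE⟩ := E_ct (hv := hv) hu m
  have hA : (mt g.1).map f * ct n ((mt g.1).map f) = 1 := by
    have h1 : ct n ((mt g.1).map f) = (ct 1 (mt g.1)).map f := by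
      ext a b
      rw [ct_apply, Matrix.map_apply, Matrix.map_apply, ct_apply, pow_odd (f25 hk _) hn, map_pow,
        pow_one]
    have h2 : mt g.1 * ct 1 (mt g.1) = 1 := g.2
    rw [h1, ← Matrix.map_mul, h2, Matrix.map_one _ (map_zero f) (map_one f)]
  rw [mt_ph, ct_mul, ct_mul]
  have h3 : ct n (mt (E v hv m)) * mt (E v hv m) = c • 1 := by
    have h4 : (c⁻¹ • mt (E v hv m)) * ct n (mt (E v hv m)) = 1 := by
      rw [Matrix.smul_mul, hE, smul_smul, inv_mul_cancel₀ hc, one_smul]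
    have h5 := mul_eq_one_comm.1 h4
    rw [Matrix.mul_smul] at h5
    rw [← h5, smul_smul, mul_inv_cancel₀ hc, one_smul]
  have h6 : mt (E v hv m)⁻¹ * ct n (mt (E v hv m)⁻¹) = c⁻¹ • 1 := by
    have h7 : mt (E v hv m)⁻¹ = c⁻¹ • ct n (mt (E v hv m)) := by
      calc mt (E v hv m)⁻¹ = c⁻¹ • (mt (E v hv m)⁻¹ * (c • 1)) := by
            rw [Matrix.mul_smul, Matrix.mul_one, smul_smul, inv_mul_cancel₀ hc, one_smul]
        _ = _ := by rw [← hE, ← Matrix.mul_assoc, mt_inv_mul, Matrix.one_mul]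
    calc mt (E v hv m)⁻¹ * ct n (mt (E v hv m)⁻¹) =
        (c⁻¹ • ct n (mt (E v hv m))) * ct n (mt (E v hv m)⁻¹) := by rw [← h7]
      _ = c⁻¹ • 1 := by rw [Matrix.smul_mul, ← ct_mul, mt_inv_mul, ct_one]
  calc mt (E v hv m) * (mt g.1).map f * mt (E v hv m)⁻¹ * (ct n (mt (E v hv m)⁻¹) *
        (ct n ((mt g.1).map f) * ct n (mt (E v hv m)))) =
      mt (E v hv m) * (mt g.1).map f * (mt (E v hv m)⁻¹ * ct n (mt (E v hv m)⁻¹)) *
        (ct n ((mt g.1).map f) * ct n (mt (E v hv m))) := by simp only [Matrix.mul_assoc]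
    _ = c⁻¹ • (mt (E v hv m) * ((mt g.1).map f * ct n ((mt g.1).map f)) *
        ct n (mt (E v hv m))) := by
          rw [h6, Matrix.mul_smul, Matrix.mul_one, Matrix.smul_mul]
          simp only [Matrix.mul_assoc]
    _ = 1 := by rw [hA, Matrix.mul_one, hE, smul_smul, inv_mul_cancel₀ hc, one_smul]

theorem claim2 [Fintype k] (hk : Fintype.card k = 25) {n : ℕ}
    (hu : (v ^ 3) ^ (5 ^ n + 1) = 1) (g : SL Om) (hg : g ∈ Sd f v hv) (i j : Fin 3) :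
    mt g i j ^ (5 ^ (2 * n)) = mt g i j := by
  obtain ⟨Φ, hΦ⟩ : ∃ Φ : SL Om →* SL Om,
    Φ = SpecialLinearGroup.map (iterateFrobenius Om 5 (2 * n)) := ⟨_, rfl⟩
  have h1 : Sd f v hv ≤ MonoidHom.eqLocus Φ (MonoidHom.id _) := by
    rw [Sd, Subgroup.closure_le]
    intro x hx
    obtain ⟨m, g, rfl⟩ := Set.mem_iUnion.1 hx
    change Φ (ph f v hv m g) = ph f v hv m g
    apply mt_inj
    have h2 : mt (Φ (ph f v hv m g)) =
        (mt (ph f v hv m g)).map (iterateFrobenius Om 5 (2 * n)) := by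
      rw [hΦ]
      rfl
    rw [h2]
    have hf : ∀ a : k, f a ^ (5 ^ (2 * n)) = f a := fun a => pow_even (f25 hk a) n
    have hv3 := u_two hu
    ext a b
    rw [Matrix.map_apply, iterateFrobenius_def]
    fin_cases m
    · change mt (ph f v hv 0 g) a b ^ _ = mt (ph f v hv 0 g) a b
      rw [mt_ph_zero]
      fin_cases a <;> fin_cases b <;> simp [mul_pow, hf, hv3]
    · change mt (ph f v hv 1 g) a b ^ _ = mt (ph f v hv 1 g) a b
      rw [mt_ph_one, Matrix.map_apply, hf]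
    · change mt (ph f v hv 2 g) a b ^ _ = mt (ph f v hv 2 g) a b
      rw [mt_ph_two]
      fin_cases a <;> fin_cases b <;> simp [mul_pow, hf, hv3]
  have h3 : Φ g = g := h1 hg
  have h4 : (mt g).map (iterateFrobenius Om 5 (2 * n)) = mt g := by
    conv_rhs => rw [← h3, hΦ]
    rfl
  have h5 := congrFun (congrFun h4 i) j
  rwa [Matrix.map_apply, iterateFrobenius_def] at h5

/-! ### Torus elements -/

lemma bar_add (n : ℕ) (x y : Om) : (x + y) ^ (5 ^ n) = x ^ (5 ^ n) + y ^ (5 ^ n) := by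
  have := map_add (iterateFrobenius Om 5 n) x y
  simpa only [iterateFrobenius_def] using this

lemma bar_sub (n : ℕ) (x y : Om) : (x - y) ^ (5 ^ n) = x ^ (5 ^ n) - y ^ (5 ^ n) := by
  have := map_sub (iterateFrobenius Om 5 n) x y
  simpa only [iterateFrobenius_def] using this

lemma bar_neg (n : ℕ) (x : Om) : (-x) ^ (5 ^ n) = -x ^ (5 ^ n) := by
  have := map_neg (iterateFrobenius Om 5 n) x
  simpa only [iterateFrobenius_def] using this

lemma bar_three (n : ℕ) : (3 : Om) ^ (5 ^ n) = 3 := by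
  have := map_ofNat (iterateFrobenius Om 5 n) 3
  simpa only [iterateFrobenius_def] using this

lemma Pm_one {M : M3 k} (h1 : M.det = 1) (h2 : M * ct 1 M = 1) : Pm f v hv (M.map f) := by
  obtain ⟨g, hg⟩ := exists_H0 M h1 h2
  exact ⟨ph f v hv 1 g, ph_mem 1 g, by rw [mt_ph_one, hg]⟩

lemma Pm_two {M : M3 k} (h1 : M.det = 1) (h2 : M * ct 1 M = 1) : Pm f v hv
    !![f (M 0 0), v ^ 3 * f (M 0 1), v ^ 3 * f (M 0 2);
      (v ^ 3)⁻¹ * f (M 1 0), f (M 1 1), f (M 1 2);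
      (v ^ 3)⁻¹ * f (M 2 0), f (M 2 1), f (M 2 2)] := by
  obtain ⟨g, hg⟩ := exists_H0 M h1 h2
  exact ⟨ph f v hv 2 g, ph_mem 2 g, by rw [mt_ph_two, hg]⟩

lemma nn_facts : (!![0, 1, 0; -1, 0, 0; 0, 0, 1] : M3 k).det = 1 ∧
    (!![0, 1, 0; -1, 0, 0; 0, 0, 1] : M3 k) * ct 1 !![0, 1, 0; -1, 0, 0; 0, 0, 1] = 1 := by
  constructor
  · rw [Matrix.det_fin_three]
    simp
  · have h5 : (-1 : k) ^ 5 ^ 1 = -1 := by norm_num
    rw [ct_eq, Matrix.mul_fin_three, Matrix.one_fin_three, h5]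
    ext x y
    fin_cases x <;> fin_cases y <;> simp

lemma nn'_facts : (!![0, 0, 1; 0, 1, 0; -1, 0, 0] : M3 k).det = 1 ∧
    (!![0, 0, 1; 0, 1, 0; -1, 0, 0] : M3 k) * ct 1 !![0, 0, 1; 0, 1, 0; -1, 0, 0] = 1 := by
  constructor
  · rw [Matrix.det_fin_three]
    simp
  · have h5 : (-1 : k) ^ 5 ^ 1 = -1 := by norm_num
    rw [ct_eq, Matrix.mul_fin_three, Matrix.one_fin_three, h5]
    ext x y
    fin_cases x <;> fin_cases y <;> simp

lemma Pm_T2 : Pm f v hv !![v ^ 3, 0, 0; 0, (v ^ 3)⁻¹, 0; 0, 0, 1] := by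
  have h1 := Pm_one (f := f) (hv := hv) nn_facts.1 nn_facts.2
  have h2 := Pm_two (f := f) (hv := hv) nn_facts.1 nn_facts.2
  have h3 := h1.inv (N := !![0, -1, 0; 1, 0, 0; 0, 0, 1]) (by
    ext x y
    fin_cases x <;> fin_cases y <;> simp [Matrix.mul_apply, Fin.sum_univ_three])
  have h4 := h2.mul h3
  convert h4 using 1
  rw [Matrix.mul_fin_three]
  ext x y
  fin_cases x <;> fin_cases y <;> simp

lemma Pm_T1 : Pm f v hv !![v ^ 3, 0, 0; 0, 1, 0; 0, 0, (v ^ 3)⁻¹] := by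
  have h1 := Pm_one (f := f) (hv := hv) nn'_facts.1 nn'_facts.2
  have h2 := Pm_two (f := f) (hv := hv) nn'_facts.1 nn'_facts.2
  have h3 := h1.inv (N := !![0, 0, -1; 0, 1, 0; 1, 0, 0]) (by
    ext x y
    fin_cases x <;> fin_cases y <;> simp [Matrix.mul_apply, Fin.sum_univ_three])
  have h4 := h2.mul h3
  convert h4 using 1
  rw [Matrix.mul_fin_three]
  ext x y
  fin_cases x <;> fin_cases y <;> simp

include hv in
lemma T1_inv : (!![v ^ 3, 0, 0; 0, 1, 0; 0, 0, (v ^ 3)⁻¹] : M3 Om) *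
    !![(v ^ 3)⁻¹, 0, 0; 0, 1, 0; 0, 0, v ^ 3] = 1 := by
  rw [Matrix.mul_fin_three, Matrix.one_fin_three]
  ext x y
  fin_cases x <;> fin_cases y <;> simp [hv]

lemma Pm_T1i : Pm f v hv !![(v ^ 3)⁻¹, 0, 0; 0, 1, 0; 0, 0, v ^ 3] := Pm_T1.inv (T1_inv (hv := hv))

lemma Pm_H : Pm f v hv !![v ^ 3, 0, 0; 0, v ^ 3, 0; 0, 0, (v ^ 3)⁻¹ * (v ^ 3)⁻¹] := by
  have h3 := (Pm_T2 (f := f) (hv := hv)).inv (N := !![(v ^ 3)⁻¹, 0, 0; 0, v ^ 3, 0; 0, 0, 1]) (by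
    rw [Matrix.mul_fin_three, Matrix.one_fin_three]
    ext x y
    fin_cases x <;> fin_cases y <;> simp [hv])
  have h4 := (Pm_T1.mul h3).mul Pm_T1
  convert h4 using 1
  rw [Matrix.mul_fin_three, Matrix.mul_fin_three]
  ext x y
  fin_cases x <;> fin_cases y <;> simp [hv]

include hv in
lemma H_inv : (!![(v ^ 3)⁻¹, 0, 0; 0, (v ^ 3)⁻¹, 0; 0, 0, v ^ 3 * v ^ 3] : M3 Om) *
    !![v ^ 3, 0, 0; 0, v ^ 3, 0; 0, 0, (v ^ 3)⁻¹ * (v ^ 3)⁻¹] = 1 := by
  rw [Matrix.mul_fin_three, Matrix.one_fin_three]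
  ext x y
  fin_cases x <;> fin_cases y <;> simp [hv]
  field_simp

lemma Pm_Hi : Pm f v hv !![(v ^ 3)⁻¹, 0, 0; 0, (v ^ 3)⁻¹, 0; 0, 0, v ^ 3 * v ^ 3] :=
  Pm_H.inv (mul_eq_one_comm.1 (H_inv (hv := hv)))

/-- Conjugation by `Hi`. -/
lemma conj_Hi (a b c : Om) (h : v ≠ 0) :
    !![(v ^ 3)⁻¹, 0, 0; 0, (v ^ 3)⁻¹, 0; 0, 0, v ^ 3 * v ^ 3] * XM a b c *
    !![v ^ 3, 0, 0; 0, v ^ 3, 0; 0, 0, (v ^ 3)⁻¹ * (v ^ 3)⁻¹] =
    XM ((v ^ 3) ^ 3 * a) b (((v ^ 3)⁻¹) ^ 3 * c) := by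
  rw [XM, XM, Matrix.mul_fin_three, Matrix.mul_fin_three]
  ext x y
  fin_cases x <;> fin_cases y <;> simp <;> field_simp

/-- Conjugation by `T1`. -/
lemma conj_T1 (a b c : Om) (h : v ≠ 0) :
    !![v ^ 3, 0, 0; 0, 1, 0; 0, 0, (v ^ 3)⁻¹] * XM (v ^ 3 * a) b ((v ^ 3)⁻¹ * c) *
    !![(v ^ 3)⁻¹, 0, 0; 0, 1, 0; 0, 0, v ^ 3] =
    !![6 + b, v ^ 3 * (10 + 2 * b), v ^ 3 * c; (v ^ 3)⁻¹ * (10 + 2 * b), 16 + 4 * b, 2 * c;
      (v ^ 3)⁻¹ * a, 2 * a, 1] := by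
  rw [XM, Matrix.mul_fin_three, Matrix.mul_fin_three]
  ext x y
  fin_cases x <;> fin_cases y <;> simp <;> field_simp

/-! ### The copies of the unipotent elements -/

lemma map_X {a b : k} {g : H0 k} (hg : mt g.1 = C k * NU 1 a b * Ci k) :
    (mt g.1).map f = XM (f a) (f b) (-(f a) ^ 5) := by
  rw [hg, X_eq, XM_map, map_neg, map_pow, pow_one]

lemma L1 [Fintype k] (hk : Fintype.card k = 25) {n : ℕ} (hn : Odd n) {a b : k} {g : H0 k}
    (hg : mt g.1 = C k * NU 1 a b * Ci k) :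
    mt (ph f v hv 1 g) = C Om * NU n (f a) (f b) * Ci Om := by
  rw [mt_ph_one, map_X hg, X_eq, pow_odd (f25 hk a) hn]

lemma L0 [Fintype k] (hk : Fintype.card k = 25) {n : ℕ} (hn : Odd n)
    (hu : (v ^ 3) ^ (5 ^ n + 1) = 1) {a b : k} {g : H0 k}
    (hg : mt g.1 = C k * NU 1 a b * Ci k) :
    mt (ph f v hv 0 g) = C Om * NU n ((v ^ 3)⁻¹ * f a) (f b) * Ci Om := by
  have h1 : ∀ x y, f (mt g.1 x y) = XM (f a) (f b) (-(f a) ^ 5) x y := fun x y => by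
    rw [← map_X hg, Matrix.map_apply]
  rw [mt_ph_zero, X_eq, mul_pow, u_bar' hu, pow_odd (f25 hk a) hn]
  simp only [h1]
  rw [XM, XM]
  ext x y
  fin_cases x <;> fin_cases y <;> simp <;> ring

lemma L2 [Fintype k] (hk : Fintype.card k = 25) {n : ℕ} (hn : Odd n)
    (hu : (v ^ 3) ^ (5 ^ n + 1) = 1) {a b : k} {g : H0 k}
    (hg : mt g.1 = C k * NU 1 a b * Ci k) :
    mt (ph f v hv 2 g) = !![v ^ 3, 0, 0; 0, 1, 0; 0, 0, (v ^ 3)⁻¹] *
      (C Om * NU n (v ^ 3 * f a) (f b) * Ci Om) * !![(v ^ 3)⁻¹, 0, 0; 0, 1, 0; 0, 0, v ^ 3] := by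
  have h1 : ∀ x y, f (mt g.1 x y) = XM (f a) (f b) (-(f a) ^ 5) x y := fun x y => by
    rw [← map_X hg, Matrix.map_apply]
  have h2 : -((v ^ 3)⁻¹ * f a ^ 5) = (v ^ 3)⁻¹ * (-(f a ^ 5)) := by ring
  rw [mt_ph_two, X_eq, mul_pow, u_bar hu, pow_odd (f25 hk a) hn, h2, conj_T1 _ _ _ hv]
  simp only [h1]
  rw [XM]
  ext x y
  fin_cases x <;> fin_cases y <;> simp

/-! ### The additive group -/

variable (f v hv) in
/-- The first parameters of the unipotent elements in the group. -/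
def AA (n : ℕ) : AddSubgroup Om where
  carrier := {a | a ^ (5 ^ (2 * n)) = a ∧ ∃ b, b ^ (5 ^ (2 * n)) = b ∧
    b + b ^ (5 ^ n) + a * a ^ (5 ^ n) = 0 ∧ Pm f v hv (C Om * NU n a b * Ci Om)}
  zero_mem' := by
    have h0 : (0 : Om) ^ 5 ^ n = 0 := zero_pow (by positivity)
    have h1 : (0 : Om) ^ 5 ^ (2 * n) = 0 := zero_pow (by positivity)
    refine ⟨h1, 0, h1, by rw [h0]; ring, ?_⟩
    rw [X_zero]
    exact ⟨1, one_mem _, mt_one⟩
  add_mem' := by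
    rintro a a' ⟨ha, b, hb, hr, hP⟩ ⟨ha', b', hb', hr', hP'⟩
    have h1 : (a ^ 5 ^ n) ^ 5 ^ (2 * n) = a ^ 5 ^ n := by
      rw [← pow_mul, mul_comm, pow_mul, ha]
    have h2 : (a ^ 5 ^ n) ^ 5 ^ n = a := by rw [← two_bar, ha]
    refine ⟨by rw [bar_add, ha, ha'], b + b' - a ^ (5 ^ n) * a', ?_, ?_, ?_⟩
    · rw [bar_sub, bar_add, mul_pow, hb, hb', h1, ha']
    · rw [bar_sub, bar_add, mul_pow, bar_add, h2]
      linear_combination hr + hr'
    · rw [← X_mul]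
      exact hP.mul hP'
  neg_mem' := by
    rintro a ⟨ha, b, hb, hr, hP⟩
    have h1 : (a ^ 5 ^ n) ^ 5 ^ (2 * n) = a ^ 5 ^ n := by
      rw [← pow_mul, mul_comm, pow_mul, ha]
    have h2 : (a ^ 5 ^ n) ^ 5 ^ n = a := by rw [← two_bar, ha]
    refine ⟨by rw [bar_neg, ha], -b - a ^ (5 ^ n) * a, ?_, ?_, ?_⟩
    · rw [bar_sub, bar_neg, mul_pow, hb, h1, ha]
    · rw [bar_sub, bar_neg, mul_pow, bar_neg, h2]
      linear_combination -hr
    · refine hP.inv ?_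
      rw [X_mul, add_neg_cancel]
      have h3 : b + (-b - a ^ 5 ^ n * a) - a ^ 5 ^ n * -a = 0 := by ring
      rw [h3, X_zero]

lemma mem_AA {n : ℕ} {a : Om} : a ∈ AA f v hv n ↔ a ^ (5 ^ (2 * n)) = a ∧
    ∃ b, b ^ (5 ^ (2 * n)) = b ∧ b + b ^ (5 ^ n) + a * a ^ (5 ^ n) = 0 ∧
      Pm f v hv (C Om * NU n a b * Ci Om) := Iff.rfl

lemma exists_b [Fintype k] (hk : Fintype.card k = 25) (a : k) :
    ∃ b : k, b + b ^ 5 + a * a ^ 5 = 0 := by
  have h5 := five (F := k)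
  have h25 := k25 hk a
  refine ⟨2 * a ^ 6, ?_⟩
  linear_combination 32 * a ^ 5 * h25 + 7 * a ^ 6 * h5

lemma rel_f [Fintype k] (hk : Fintype.card k = 25) {n : ℕ} (hn : Odd n) {a b : k}
    (h : b + b ^ 5 + a * a ^ 5 = 0) : f b + f b ^ (5 ^ n) + f a * f a ^ (5 ^ n) = 0 := by
  rw [pow_odd (f25 hk a) hn, pow_odd (f25 hk b) hn, ← map_pow, ← map_pow, ← map_mul, ← map_add,
    ← map_add, h, map_zero]

lemma AA_f [Fintype k] (hk : Fintype.card k = 25) {n : ℕ} (hn : Odd n)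
    (hu : (v ^ 3) ^ (5 ^ n + 1) = 1) (a : k) :
    f a ∈ AA f v hv n ∧ v ^ 3 * f a ∈ AA f v hv n ∧ (v ^ 3)⁻¹ * f a ∈ AA f v hv n := by
  obtain ⟨b, hb⟩ := exists_b hk a
  obtain ⟨g, hg⟩ := exists_X a b (k25 hk a) hb
  have hfa := pow_even (f25 (f := f) hk a) n
  have hfb := pow_even (f25 (f := f) hk b) n
  have hr := rel_f (f := f) hk hn hb
  have hu2 := u_two hu
  have hv3 : v ^ 3 ≠ 0 := pow_ne_zero _ hv
  refine ⟨⟨hfa, f b, hfb, hr, ?_⟩, ⟨?_, f b, hfb, ?_, ?_⟩, ⟨?_, f b, hfb, ?_, ?_⟩⟩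
  · exact ⟨_, ph_mem 1 g, L1 hk hn hg⟩
  · rw [mul_pow, hu2, hfa]
  · rw [mul_pow, u_bar hu, ← hr]
    field_simp
  · have h1 : Pm f v hv (!![v ^ 3, 0, 0; 0, 1, 0; 0, 0, (v ^ 3)⁻¹] *
        (C Om * NU n (v ^ 3 * f a) (f b) * Ci Om) * !![(v ^ 3)⁻¹, 0, 0; 0, 1, 0; 0, 0, v ^ 3]) :=
      ⟨_, ph_mem 2 g, L2 hk hn hu hg⟩
    have h2 := h1.conj Pm_T1i (mul_eq_one_comm.1 (T1_inv (hv := hv)))
    convert h2 using 1
    have h3 := mul_eq_one_comm.1 (T1_inv (hv := hv))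
    calc C Om * NU n (v ^ 3 * f a) (f b) * Ci Om =
        (!![(v ^ 3)⁻¹, 0, 0; 0, 1, 0; 0, 0, v ^ 3] * !![v ^ 3, 0, 0; 0, 1, 0; 0, 0, (v ^ 3)⁻¹]) *
        (C Om * NU n (v ^ 3 * f a) (f b) * Ci Om) *
        (!![(v ^ 3)⁻¹, 0, 0; 0, 1, 0; 0, 0, v ^ 3] * !![v ^ 3, 0, 0; 0, 1, 0; 0, 0, (v ^ 3)⁻¹]) := by
          rw [h3, Matrix.one_mul, Matrix.mul_one]
      _ = _ := by simp only [Matrix.mul_assoc]
  · rw [mul_pow, inv_pow, hu2, hfa]
  · rw [mul_pow, u_bar' hu, ← hr]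
    field_simp
  · exact ⟨_, ph_mem 0 g, L0 hk hn hu hg⟩

lemma AA_cube {n : ℕ} (hu : (v ^ 3) ^ (5 ^ n + 1) = 1) {a : Om}
    (ha : a ∈ AA f v hv n) : (v ^ 3) ^ 3 * a ∈ AA f v hv n := by
  obtain ⟨ha, b, hb, hr, hP⟩ := mem_AA.1 ha
  have hv3 : v ^ 3 ≠ 0 := pow_ne_zero _ hv
  have hbar : ((v ^ 3) ^ 3) ^ 5 ^ n = ((v ^ 3)⁻¹) ^ 3 := by
    rw [← pow_mul (v ^ 3), mul_comm, pow_mul, u_bar hu]
  refine mem_AA.2 ⟨?_, b, hb, ?_, ?_⟩
  · rw [mul_pow, ha, ← pow_mul (v ^ 3), mul_comm 3, pow_mul, u_two hu]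
  · rw [mul_pow, hbar, ← hr]
    field_simp
  · rw [X_eq] at hP ⊢
    have h1 := hP.conj Pm_Hi (H_inv (hv := hv))
    rw [conj_Hi _ _ _ hv] at h1
    convert h1 using 2
    rw [mul_pow, hbar]
    ring

lemma AA_pow [Fintype k] (hk : Fintype.card k = 25) {n : ℕ} (hn : Odd n)
    (hu : (v ^ 3) ^ (5 ^ n + 1) = 1) (j : ℕ) : (v ^ 3) ^ j ∈ AA f v hv n := by
  induction j using Nat.strong_induction_on with
  | _ j ih =>
    rcases Nat.lt_or_ge j 3 with h | h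
    · have h1 := AA_f (f := f) (hv := hv) hk hn hu 1
      rw [map_one, mul_one, mul_one] at h1
      interval_cases j
      · rw [pow_zero]
        exact h1.1
      · rw [pow_one]
        exact h1.2.1
      · have h2 := AA_cube hu h1.2.2
        convert h2 using 1
        have hv3 : v ^ 3 ≠ 0 := pow_ne_zero _ hv
        field_simp
    · obtain ⟨i, rfl⟩ := Nat.exists_eq_add_of_le h
      rw [pow_add]
      exact AA_cube hu (ih i (by omega))

section main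

variable [Fintype k] (hk : Fintype.card k = 25) {n : ℕ} (hn : Odd n)
  (hu : (v ^ 3) ^ (5 ^ n + 1) = 1)
  (hgen : ∀ x : Om, x ^ (5 ^ (2 * n)) = x →
    x ∈ AddSubgroup.closure (Set.range fun j : ℕ => (v ^ 3) ^ j))

include hk hn hu hgen

lemma AA_all {a : Om} (ha : a ^ (5 ^ (2 * n)) = a) : a ∈ AA f v hv n := by
  have h1 : AddSubgroup.closure (Set.range fun j : ℕ => (v ^ 3) ^ j) ≤ AA f v hv n := by
    rw [AddSubgroup.closure_le]
    rintro _ ⟨j, rfl⟩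
    exact AA_pow hk hn hu j
  exact h1 (hgen a ha)

lemma Pm_skew {d : Om} (hd : d ^ (5 ^ (2 * n)) = d) (hs : d + d ^ (5 ^ n) = 0) :
    Pm f v hv (C Om * NU n 0 d * Ci Om) := by
  have h5 := five (F := Om)
  obtain ⟨_, b, hb, hr, hP⟩ := mem_AA.1 (AA_all (f := f) (hv := hv) hk hn hu hgen hd)
  obtain ⟨_, b', hb', hr', hP'⟩ :=
    mem_AA.1 (AA_all (f := f) (hv := hv) hk hn hu hgen (bar_three (2 * n)))
  have h1 := hP.mul hP'
  have h2 := hP'.mul hP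
  rw [X_mul] at h1 h2
  rw [bar_three] at h2
  obtain ⟨s, hs'⟩ : ∃ s, s = d + 3 := ⟨_, rfl⟩
  obtain ⟨c1, hc1⟩ : ∃ c, c = b + b' - d ^ 5 ^ n * 3 := ⟨_, rfl⟩
  obtain ⟨c2, hc2⟩ : ∃ c, c = b' + b - 3 * d := ⟨_, rfl⟩
  rw [← hs', ← hc1] at h1
  rw [add_comm 3 d, ← hs', ← hc2] at h2
  have h3 := h2.inv (N := C Om * NU n (-s) (-c2 - s ^ 5 ^ n * s) * Ci Om) (by
    rw [X_mul, add_neg_cancel]
    have h4 : c2 + (-c2 - s ^ 5 ^ n * s) - s ^ 5 ^ n * -s = 0 := by ring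
    rw [h4, X_zero])
  have h4 := h1.mul h3
  rw [X_mul, add_neg_cancel] at h4
  have h6 : c1 + (-c2 - s ^ 5 ^ n * s) - s ^ 5 ^ n * -s = d := by
    have h7 : d ^ 5 ^ n = -d := by linear_combination hs
    rw [hc1, hc2, h7]
    linear_combination d * h5
  rw [h6] at h4
  exact h4

theorem claim3 (a b : Om) (ha : a ^ (5 ^ (2 * n)) = a) (hb : b ^ (5 ^ (2 * n)) = b)
    (hr : b + b ^ (5 ^ n) + a * a ^ (5 ^ n) = 0) : Pm f v hv (C Om * NU n a b * Ci Om) := by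
  obtain ⟨_, b0, hb0, hr0, hP⟩ := mem_AA.1 (AA_all (f := f) (hv := hv) hk hn hu hgen ha)
  have h1 := Pm_skew (f := f) (hv := hv) hk hn hu hgen (d := b - b0) (by rw [bar_sub, hb, hb0])
    (by rw [bar_sub]; linear_combination hr - hr0)
  have h2 := hP.mul h1
  rw [X_mul] at h2
  convert h2 using 4 <;> ring

/-- The unipotent elements of the group and their conjugates. -/
def WW (f : k →+* Om) (v : Om) (hv : v ≠ 0) (n : ℕ) : Set (SL Om) :=
  {g | ∃ h ∈ Sd f v hv, ∃ y ∈ Sd f v hv, ∃ a b : Om,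
      a ^ (5 ^ (2 * n)) = a ∧ b ^ (5 ^ (2 * n)) = b ∧ b + b ^ (5 ^ n) + a * a ^ (5 ^ n) = 0 ∧
      mt y = C Om * NU n a b * Ci Om ∧ g = h * y * h⁻¹}

omit [CharP k 5] [Fintype k] hk hn hu hgen in
lemma WW_conj [CharP k 5] {s w : SL Om} (hs : s ∈ Sd f v hv)
    (hw : w ∈ Subgroup.closure (WW f v hv n)) :
    s * w * s⁻¹ ∈ Subgroup.closure (WW f v hv n) := by
  induction hw using Subgroup.closure_induction with
  | mem x hx =>
    obtain ⟨h, hh, y, hy, a, b, ha, hb, hr, hy', rfl⟩ := hx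
    refine Subgroup.subset_closure ⟨s * h, mul_mem hs hh, y, hy, a, b, ha, hb, hr, hy', ?_⟩
    group
  | one =>
    rw [mul_one, mul_inv_cancel]
    exact one_mem _
  | mul x y _ _ hx hy =>
    have h1 : s * (x * y) * s⁻¹ = (s * x * s⁻¹) * (s * y * s⁻¹) := by group
    rw [h1]
    exact mul_mem hx hy
  | inv x _ hx =>
    have h1 : s * x⁻¹ * s⁻¹ = (s * x * s⁻¹)⁻¹ := by group
    rw [h1]
    exact inv_mem hx

theorem claim6 (hG : S_GEN) : Sd f v hv ≤ Subgroup.closure (WW f v hv n) := by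
  have hu2 := u_two hu
  have hv3 : v ^ 3 ≠ 0 := pow_ne_zero _ hv
  have key : ∀ m (g : H0 k), ph f v hv m g ∈ Subgroup.closure (WW f v hv n) := by
    intro m
    obtain ⟨W, hW⟩ : ∃ W : Subgroup (H0 k),
      W = (Subgroup.closure (WW f v hv n)).comap (ph f v hv m) := ⟨_, rfl⟩
    have hmem : ∀ g, g ∈ W ↔ ph f v hv m g ∈ Subgroup.closure (WW f v hv n) := by
      intro g
      rw [hW, Subgroup.mem_comap]
    haveI : W.Normal := by
      refine ⟨fun x hx g => ?_⟩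
      rw [hmem] at hx ⊢
      rw [map_mul, map_mul, map_inv]
      exact WW_conj (ph_mem m g) hx
    have h1 : Subgroup.normalClosure {g : H0 k | ∃ a b : k, b + b ^ 5 + a * a ^ 5 = 0 ∧
      mt g.1 = C k * NU 1 a b * Ci k} ≤ W := by
      apply Subgroup.normalClosure_le_normal
      rintro g ⟨a, b, hr, hg⟩
      change g ∈ W
      rw [hmem]
      have hfa := pow_even (f25 (f := f) hk a) n
      have hfb := pow_even (f25 (f := f) hk b) n
      have hr' := rel_f (f := f) hk hn hr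
      fin_cases m
      · refine Subgroup.subset_closure ⟨1, one_mem _, _, ph_mem 0 g, _, _, ?_, hfb, ?_,
          L0 hk hn hu hg, ?_⟩
        · rw [mul_pow, inv_pow, hu2, hfa]
        · rw [mul_pow, u_bar' hu, ← hr']
          field_simp
        · rw [one_mul, inv_one, mul_one]
          rfl
      · refine Subgroup.subset_closure ⟨1, one_mem _, _, ph_mem 1 g, _, _, hfa, hfb, hr',
          L1 hk hn hg, ?_⟩
        rw [one_mul, inv_one, mul_one]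
        rfl
      · obtain ⟨t, ht, ht'⟩ := Pm_T1 (f := f) (hv := hv)
        have e1 : (v ^ 3 * f a) ^ 5 ^ (2 * n) = v ^ 3 * f a := by rw [mul_pow, hu2, hfa]
        have e2 : f b + f b ^ 5 ^ n + v ^ 3 * f a * (v ^ 3 * f a) ^ 5 ^ n = 0 := by
          rw [mul_pow, u_bar hu, ← hr']
          field_simp
        obtain ⟨y, hy, hy'⟩ := claim3 (f := f) (hv := hv) hk hn hu hgen _ _ e1 hfb e2
        refine Subgroup.subset_closure ⟨t, ht, y, hy, _, _, e1, hfb, e2, hy', ?_⟩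
        apply mt_inj
        have h2 : mt t⁻¹ = !![(v ^ 3)⁻¹, 0, 0; 0, 1, 0; 0, 0, v ^ 3] := by
          calc mt t⁻¹ = mt t⁻¹ * (mt t * !![(v ^ 3)⁻¹, 0, 0; 0, 1, 0; 0, 0, v ^ 3]) := by
                rw [ht', T1_inv (hv := hv), Matrix.mul_one]
            _ = _ := by rw [← Matrix.mul_assoc, mt_inv_mul, Matrix.one_mul]
        rw [mt_mul, mt_mul, h2, hy', ht']
        exact L2 hk hn hu hg
    rw [hG k hk] at h1
    intro g
    rw [← hmem]
    exact h1 (Subgroup.mem_top g)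
  rw [Sd, Subgroup.closure_le]
  intro x hx
  obtain ⟨m, g, rfl⟩ := Set.mem_iUnion.1 hx
  exact key m g

end main

theorem claim4 : Pm f v hv (C Om * !![0, 1, 0; 1, 0, 0; 0, 0, -1] * Ci Om) := by
  have h5 := five (F := Om)
  have h1 := Pm_one (f := f) (hv := hv) (M := !![0, -1, 0; -1, 0, 0; 0, 0, -1]) (by
    rw [Matrix.det_fin_three]
    simp) (by
    have h5 : (-1 : k) ^ 5 ^ 1 = -1 := by norm_num
    rw [ct_eq, Matrix.mul_fin_three, Matrix.one_fin_three, h5]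
    ext x y
    fin_cases x <;> fin_cases y <;> simp)
  convert h1 using 1
  rw [C, Ci, Matrix.mul_fin_three, Matrix.mul_fin_three]
  ext x y
  fin_cases x <;> fin_cases y <;> simp <;>
    first | linear_combination 2 * h5 | linear_combination 3 * h5 | linear_combination 4 * h5

theorem claim5 : Pm f v hv (C Om * !![2, 0, 0; 0, 3, 0; 0, 0, 1] * Ci Om) := by
  have h5 := five (F := Om)
  have h1 := Pm_one (f := f) (hv := hv) nn_facts.1 nn_facts.2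
  convert h1 using 1
  rw [C, Ci, Matrix.mul_fin_three, Matrix.mul_fin_three]
  ext x y
  fin_cases x <;> fin_cases y <;> simp <;>
    first | linear_combination 3 * h5 | linear_combination 5 * h5 | linear_combination 8 * h5

end Om

theorem t_uni (h : S_GEN) : S_UNI := by
  intro k _ _ _ hk f n hn v hv hu hgen
  exact ⟨claim1 hk hn hu, claim2 hk hu, claim3 hk hn hu hgen, claim4, claim5,
    claim6 hk hn hu hgen h⟩

end Pool.Agent.N73.RK
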